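import Pool.Agent.Q170.FZ.Fib

/-!
Integral points of a box at which the value of a polynomial is a high power times a small number, up
to given prime factors (helper file, a refinement of `Pool.Agent.Q170.FZ.card_pow`).
-/

set_option autoImplicit false

namespace Pool.Agent.Q170.SU

open MvPolynomial
open Pool.Agent.Q170.ZP.Count Pool.Agent.Q170.FZ

variable {r : ℕ}

/-- a sum of negative powers -/
theorem sum_rpow (a : ℝ) (ha : 0 ≤ a) (ha1 : a ≤ 1 / 2) (R : ℕ) :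
    ∑ y ∈ Finset.Icc 1 R, (y : ℝ) ^ (-a) ≤ 2 * (R : ℝ) ^ (1 - a) := by
  induction R with
  | zero =>
    simp only [Finset.Icc_eq_empty_of_lt (Nat.zero_lt_one), Finset.sum_empty]
    positivity
  | succ n ih =>
    rw [Finset.sum_Icc_succ_top (by omega)]
    have hn0 : (0 : ℝ) ≤ n := Nat.cast_nonneg _
    have hn1 : (0 : ℝ) < (n : ℝ) + 1 := by positivity
    have h1 : (n : ℝ) ^ (1 - a) ≤ ((n : ℝ) + 1) ^ (1 - a) - (1 - a) * ((n : ℝ) + 1) ^ (-a) := by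
      have h2 : (n : ℝ) = ((n : ℝ) + 1) * (1 + -(1 / ((n : ℝ) + 1))) := by
        field_simp
        ring
      have h3 : (1 : ℝ) / ((n : ℝ) + 1) ≤ 1 := by
        rw [div_le_one hn1]
        linarith
      have h4 : (1 + -(1 / ((n : ℝ) + 1))) ^ (1 - a) ≤ 1 + (1 - a) * -(1 / ((n : ℝ) + 1)) :=
        _root_.rpow_one_add_le_one_add_mul_self (by linarith) (by linarith) (by linarith)
      have h5 : ((n : ℝ) + 1) ^ (1 - a) * (1 / ((n : ℝ) + 1)) = ((n : ℝ) + 1) ^ (-a) := by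
        rw [one_div, ← Real.rpow_neg_one, ← Real.rpow_add hn1]
        congr 1
        ring
      calc (n : ℝ) ^ (1 - a) = (((n : ℝ) + 1) * (1 + -(1 / ((n : ℝ) + 1)))) ^ (1 - a) := by
            rw [← h2]
        _ = ((n : ℝ) + 1) ^ (1 - a) * (1 + -(1 / ((n : ℝ) + 1))) ^ (1 - a) :=
            Real.mul_rpow hn1.le (by linarith)
        _ ≤ ((n : ℝ) + 1) ^ (1 - a) * (1 + (1 - a) * -(1 / ((n : ℝ) + 1))) :=
            mul_le_mul_of_nonneg_left h4 (by positivity)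
        _ = ((n : ℝ) + 1) ^ (1 - a) -
              (1 - a) * (((n : ℝ) + 1) ^ (1 - a) * (1 / ((n : ℝ) + 1))) := by ring
        _ = _ := by rw [h5]
    have h6 : (0 : ℝ) ≤ ((n : ℝ) + 1) ^ (-a) := by positivity
    push_cast
    nlinarith

/-- numbers which are high powers times a small number, up to given prime factors -/
theorem pow_countR (ε : ℝ) (hε : 0 < ε) : ∃ C : ℝ, 0 < C ∧ ∀ U X Rn R : ℕ, 2 ≤ U → 1 ≤ X →
    1 ≤ Rn → 1 ≤ R → ∃ Sm : Finset ℕ, (Sm.card : ℝ) ≤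
      C * (R : ℝ) ^ (1 - 1 / (U : ℝ)) * (X : ℝ) ^ (1 / (U : ℝ) + ε) * (Rn : ℝ) ^ ε ∧
      ∀ x : ℕ, 1 ≤ x → x ≤ X → (∃ u, U ≤ u ∧ ∃ y z, 1 ≤ y ∧ y ≤ R ∧ x = y * z ∧
        ∀ q : ℕ, q.Prime → ¬ q ∣ Rn → u ∣ z.factorization q) → x ∈ Sm := by
  classical
  obtain ⟨C, hC, hpow⟩ := pow_count ε hε
  refine ⟨2 * C, by positivity, fun U X Rn R hU hX hRn hR => ?_⟩
  have key : ∀ y : ℕ, ∃ Sm : Finset ℕ, (1 ≤ y → (Sm.card : ℝ) ≤
      C * ((X : ℝ) ^ (1 / (U : ℝ) + ε) * (y : ℝ) ^ (-(1 / (U : ℝ)))) * (Rn : ℝ) ^ ε) ∧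
      ∀ z : ℕ, 1 ≤ y → 1 ≤ z → y * z ≤ X → (∃ u, U ≤ u ∧
        ∀ q : ℕ, q.Prime → ¬ q ∣ Rn → u ∣ z.factorization q) → z ∈ Sm := by
    intro y
    by_cases hy : 1 ≤ y ∧ 1 ≤ X / y
    · obtain ⟨hy1, hy2⟩ := hy
      obtain ⟨Sm, h1, h2⟩ := hpow U (X / y) Rn 1 (by omega) hy2 hRn le_rfl
      refine ⟨Sm, fun _ => h1.trans ?_, fun z _ hz hzX ⟨u, hu, h⟩ => h2 z hz ?_
        ⟨u, hu, 1, le_rfl, le_rfl, fun q hq hqR => h q hq (by rwa [mul_one] at hqR)⟩⟩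
      · rw [Nat.cast_one, Real.one_rpow, mul_one]
        refine mul_le_mul_of_nonneg_right (mul_le_mul_of_nonneg_left ?_ hC.le) (by positivity)
        have hy0 : (0 : ℝ) < y := by exact_mod_cast hy1
        have hy1' : (1 : ℝ) ≤ y := by exact_mod_cast hy1
        have hX0 : (0 : ℝ) < X := by exact_mod_cast hX
        have h3 : ((X / y : ℕ) : ℝ) ≤ (X : ℝ) / y := Nat.cast_div_le
        calc ((X / y : ℕ) : ℝ) ^ (1 / (U : ℝ) + ε) ≤ ((X : ℝ) / y) ^ (1 / (U : ℝ) + ε) :=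
              Real.rpow_le_rpow (Nat.cast_nonneg _) h3 (by positivity)
          _ = (X : ℝ) ^ (1 / (U : ℝ) + ε) * (y : ℝ) ^ (-(1 / (U : ℝ) + ε)) := by
              rw [Real.div_rpow hX0.le hy0.le, Real.rpow_neg hy0.le, div_eq_mul_inv]
          _ ≤ _ := by
              refine mul_le_mul_of_nonneg_left ?_ (by positivity)
              exact Real.rpow_le_rpow_of_exponent_le hy1' (by linarith)
      · exact (Nat.le_div_iff_mul_le hy1).2 (by rwa [mul_comm])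
    · refine ⟨∅, fun _ => ?_, fun z hy1 hz hzX _ => ?_⟩
      · rw [Finset.card_empty, Nat.cast_zero]
        positivity
      · exfalso
        apply hy
        refine ⟨hy1, (Nat.le_div_iff_mul_le hy1).2 ?_⟩
        rw [one_mul]
        exact (Nat.le_mul_of_pos_right y hz).trans hzX
  choose Sm hSm1 hSm2 using key
  refine ⟨(Finset.Icc 1 R).biUnion fun y => (Sm y).image fun z => y * z, ?_, ?_⟩
  · have h1 : ((((Finset.Icc 1 R).biUnion fun y => (Sm y).image fun z => y * z).card : ℕ) : ℝ) ≤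
        ∑ y ∈ Finset.Icc 1 R, ((Sm y).card : ℝ) := by
      have h2 : ((Finset.Icc 1 R).biUnion fun y => (Sm y).image fun z => y * z).card ≤
          ∑ y ∈ Finset.Icc 1 R, (Sm y).card :=
        Finset.card_biUnion_le.trans (Finset.sum_le_sum fun y _ => Finset.card_image_le)
      exact_mod_cast h2
    refine h1.trans ?_
    have h2 : ∑ y ∈ Finset.Icc 1 R, ((Sm y).card : ℝ) ≤ ∑ y ∈ Finset.Icc 1 R,
        (C * (X : ℝ) ^ (1 / (U : ℝ) + ε) * (Rn : ℝ) ^ ε) * (y : ℝ) ^ (-(1 / (U : ℝ))) := by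
      refine Finset.sum_le_sum fun y hy => ?_
      refine (hSm1 y (Finset.mem_Icc.1 hy).1).trans (le_of_eq ?_)
      ring
    refine h2.trans ?_
    rw [← Finset.mul_sum]
    have hUr : (2 : ℝ) ≤ U := by exact_mod_cast hU
    have h3 := sum_rpow (1 / (U : ℝ)) (by positivity)
      (one_div_le_one_div_of_le (by norm_num) hUr) R
    calc (C * (X : ℝ) ^ (1 / (U : ℝ) + ε) * (Rn : ℝ) ^ ε) *
          ∑ y ∈ Finset.Icc 1 R, (y : ℝ) ^ (-(1 / (U : ℝ)))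
        ≤ (C * (X : ℝ) ^ (1 / (U : ℝ) + ε) * (Rn : ℝ) ^ ε) * (2 * (R : ℝ) ^ (1 - 1 / (U : ℝ))) :=
          mul_le_mul_of_nonneg_left h3 (by positivity)
      _ = _ := by ring
  · rintro x hx1 hxX ⟨u, hu, y, z, hy1, hyR, rfl, h⟩
    rw [Finset.mem_biUnion]
    have hz1 : 1 ≤ z := by
      rcases Nat.eq_zero_or_pos z with h1 | h1
      · rw [h1, mul_zero] at hx1
        omega
      · exact h1
    exact ⟨y, Finset.mem_Icc.2 ⟨hy1, hyR⟩,
      Finset.mem_image.2 ⟨z, hSm2 y z hy1 hz1 hxX ⟨u, hu, h⟩, rfl⟩⟩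

/-- The points of a box at which the value of `D` is `y z`, where `y` is at most `R` and `z` is a
`u`-th power, `u ≥ U`, up to the prime factors which divide the value of `c`. -/
theorem card_powR (D : MvPolynomial (Fin r) ℤ) (j : Fin r) (hj : 0 < degreeOf j D)
    (c : MvPolynomial {i : Fin r // i ≠ j} ℤ) (hc : c ≠ 0) (U : ℕ) (hU : 2 ≤ U) (ε : ℝ)
    (hε : 0 < ε) :
    ∃ C : ℝ, 0 < C ∧ ∀ H : ℕ, 1 ≤ H → ∀ R : ℕ, 1 ≤ R → ∀ Bad : Finset (Fin r → ℤ), Bad ⊆ box r H →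
      (∀ t ∈ Bad, eval t D ≠ 0 ∧ ∃ u, U ≤ u ∧ ∃ y z, 1 ≤ y ∧ y ≤ R ∧
        (eval t D).natAbs = y * z ∧ ∀ q : ℕ, q.Prime →
        ¬ (q : ℤ) ∣ eval (fun i : {i : Fin r // i ≠ j} => t i) c → u ∣ z.factorization q) →
      (Bad.card : ℝ) ≤ C * (R : ℝ) ^ (1 - 1 / (U : ℝ)) *
        (H : ℝ) ^ ((r : ℝ) - 1 + D.totalDegree / (U : ℝ) + ε) := by
  classical
  have hr : 1 ≤ r := by
    have := j.2
    omega
  obtain ⟨C0, hC0, hfib⟩ := card_fib D j hj c hc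
  obtain ⟨C1, hC1, hsize1⟩ := eval_le' D
  obtain ⟨C2, hC2, hsize2⟩ := eval_le' (rename Subtype.val c : MvPolynomial (Fin r) ℤ)
  obtain ⟨a1, ha1⟩ : ∃ a1, a1 = D.totalDegree := ⟨_, rfl⟩
  obtain ⟨a2, ha2⟩ : ∃ a2, a2 = (rename Subtype.val c : MvPolynomial (Fin r) ℤ).totalDegree :=
    ⟨_, rfl⟩
  rw [← ha1] at hsize1 ⊢
  rw [← ha2] at hsize2
  let ε' : ℝ := ε / (a1 + a2 + 1)
  have hε' : 0 < ε' := by positivity
  obtain ⟨D1, hD1, hpow⟩ := pow_countR ε' hε'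
  let K0 : ℝ := D1 * (C1 : ℝ) ^ (1 / (U : ℝ) + ε') * (C2 : ℝ) ^ ε'
  have hC1' : (0 : ℝ) < C1 := by exact_mod_cast hC1
  have hC2' : (0 : ℝ) < C2 := by exact_mod_cast hC2
  have hK0 : 0 < K0 := by positivity
  refine ⟨C0 * (1 + K0), by positivity, fun H hH R hR Bad hBad hbad => ?_⟩
  have hH1 : (1 : ℝ) ≤ H := by exact_mod_cast hH
  have hH0 : (0 : ℝ) < H := by linarith
  have hR1 : (1 : ℝ) ≤ R := by exact_mod_cast hR
  have hR0 : (0 : ℝ) < R := by linarith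
  have hUr : (2 : ℝ) ≤ U := by exact_mod_cast hU
  have hU1 : (0 : ℝ) ≤ 1 - 1 / (U : ℝ) := by
    have : 1 / (U : ℝ) ≤ 1 / 2 := one_div_le_one_div_of_le (by norm_num) hUr
    linarith
  obtain ⟨K, hKdef⟩ : ∃ K, K = K0 * (R : ℝ) ^ (1 - 1 / (U : ℝ)) * (H : ℝ) ^ (a1 / (U : ℝ) + ε) :=
    ⟨_, rfl⟩
  have hK : 0 ≤ K := by
    rw [hKdef]
    positivity
  have key := hfib H hH Bad hBad K hK fun w hw hcw => by
    have hcsize : (eval w c).natAbs ≤ C2 * H ^ a2 := by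
      let t0 : Fin r → ℤ := fun i => if h : i ≠ j then w ⟨i, h⟩ else 0
      have h1 := hsize2 H hH t0 (fun i => by
        by_cases h : i ≠ j
        · simp only [t0, dif_pos h]
          exact hw _
        · simp only [t0, dif_neg h]
          rw [abs_zero]
          exact Nat.cast_nonneg _)
      rw [eval_rename] at h1
      have h2 : t0 ∘ Subtype.val = w := by
        funext i
        simp only [Function.comp_apply, t0, dif_pos i.2]
      rwa [h2] at h1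
    have hRn : 1 ≤ (eval w c).natAbs := Int.natAbs_pos.2 hcw
    have hX : 1 ≤ C1 * H ^ a1 := Nat.mul_pos hC1 (by positivity)
    obtain ⟨Sm, hSm, hSmem⟩ := hpow U (C1 * H ^ a1) (eval w c).natAbs R hU hX hRn hR
    refine ⟨Sm, hSm.trans ?_, fun t ht htw => ?_⟩
    · have h2 : ((C1 * H ^ a1 : ℕ) : ℝ) ^ (1 / (U : ℝ) + ε') =
          (C1 : ℝ) ^ (1 / (U : ℝ) + ε') * (H : ℝ) ^ (a1 * (1 / (U : ℝ) + ε')) := by
        push_cast
        rw [Real.mul_rpow (by positivity) (by positivity), ← Real.rpow_natCast (H : ℝ) a1,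
          ← Real.rpow_mul hH0.le]
      have h3 : (((eval w c).natAbs : ℕ) : ℝ) ^ ε' ≤ (C2 : ℝ) ^ ε' * (H : ℝ) ^ (a2 * ε') := by
        have h4 : (((eval w c).natAbs : ℕ) : ℝ) ≤ (C2 : ℝ) * (H : ℝ) ^ a2 := by
          exact_mod_cast hcsize
        refine (Real.rpow_le_rpow (by positivity) h4 hε'.le).trans (le_of_eq ?_)
        rw [Real.mul_rpow (by positivity) (by positivity), ← Real.rpow_natCast (H : ℝ) a2,
          ← Real.rpow_mul hH0.le]
      rw [h2, hKdef]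
      calc D1 * (R : ℝ) ^ (1 - 1 / (U : ℝ)) * ((C1 : ℝ) ^ (1 / (U : ℝ) + ε') *
            (H : ℝ) ^ (a1 * (1 / (U : ℝ) + ε'))) * (((eval w c).natAbs : ℕ) : ℝ) ^ ε'
          ≤ D1 * (R : ℝ) ^ (1 - 1 / (U : ℝ)) * ((C1 : ℝ) ^ (1 / (U : ℝ) + ε') *
            (H : ℝ) ^ (a1 * (1 / (U : ℝ) + ε'))) * ((C2 : ℝ) ^ ε' * (H : ℝ) ^ (a2 * ε')) :=
            mul_le_mul_of_nonneg_left h3 (by positivity)
        _ = K0 * (R : ℝ) ^ (1 - 1 / (U : ℝ)) *
            (H : ℝ) ^ (a1 * (1 / (U : ℝ) + ε') + a2 * ε') := by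
            rw [Real.rpow_add hH0]
            ring
        _ ≤ K0 * (R : ℝ) ^ (1 - 1 / (U : ℝ)) * (H : ℝ) ^ (a1 / (U : ℝ) + ε) := by
            refine mul_le_mul_of_nonneg_left (Real.rpow_le_rpow_of_exponent_le hH1 ?_)
              (by positivity)
            have h7 : a1 * ε' + a2 * ε' + ε' = ε := by
              simp only [ε']
              field_simp
            have h8 : (a1 : ℝ) * (1 / (U : ℝ) + ε') = a1 / (U : ℝ) + a1 * ε' := by ring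
            rw [h8]
            linarith
    · obtain ⟨h0, u, hu, y, z, hy1, hyR, hyz, h⟩ := hbad t ht
      refine hSmem _ (Int.natAbs_pos.2 h0) (hsize1 H hH t (mem_box.1 (hBad ht)))
        ⟨u, hu, y, z, hy1, hyR, hyz, fun q hq hqN => ?_⟩
      refine h q hq ?_
      intro hd
      rw [htw] at hd
      exact hqN (Int.natCast_dvd.1 hd)
  refine key.trans ?_
  have hexp : (H : ℝ) ^ ((r : ℝ) - 1 + a1 / (U : ℝ) + ε) =
      (H : ℝ) ^ (a1 / (U : ℝ) + ε) * (H : ℝ) ^ (r - 1) := by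
    rw [← Real.rpow_natCast, ← Real.rpow_add hH0]
    congr 1
    rw [Nat.cast_sub hr, Nat.cast_one]
    ring
  rw [hexp]
  have h9 : (1 : ℝ) ≤ (R : ℝ) ^ (1 - 1 / (U : ℝ)) * (H : ℝ) ^ (a1 / (U : ℝ) + ε) :=
    one_le_mul_of_one_le_of_one_le (Real.one_le_rpow hR1 hU1)
      (Real.one_le_rpow hH1 (by positivity))
  calc C0 * (1 + K) * (H : ℝ) ^ (r - 1)
      ≤ C0 * ((1 + K0) * ((R : ℝ) ^ (1 - 1 / (U : ℝ)) * (H : ℝ) ^ (a1 / (U : ℝ) + ε))) *
        (H : ℝ) ^ (r - 1) := by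
        refine mul_le_mul_of_nonneg_right (mul_le_mul_of_nonneg_left ?_ hC0.le) (by positivity)
        rw [hKdef]
        nlinarith
    _ = _ := by ring

end Pool.Agent.Q170.SU
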