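import Pool.Agent.Q170.SU.Pole
import Pool.Agent.Q170.SU.Frac

/-!
The image of the Galois group on the points of order `p` for the members of families with several
parameters (helper file).
-/

set_option autoImplicit false

namespace Pool.Agent.Q170.SU

open NumberField IsDedekindDomain Pool.Agent.Q170.FZ MvPolynomial
open Pool.Agent.Q170.ZP.Count
open Pool.Agent.Y733.UD Pool.Agent.Y733.LS Pool.Agent.W223.AK Pool.Agent.H691R3
open Pool.Agent.Q237.LS Pool.Agent.Q237.LT Pool.Agent.Q237.US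
open Pool.Agent.Y673.Loc (adv)
open Pool.Agent.Y673.SL (HasSL)

variable {r : ℕ}

/-- a pole along a hypersurface -/
structure Pol (F G P : MvPolynomial (Fin r) ℤ) (w : ℕ) (j : Fin r)
    (c : MvPolynomial {i : Fin r // i ≠ j} ℤ) : Prop where
  one : ∀ t, eval t G ≠ 0 → eval t P ≠ 0
  two : ∀ t (q : ℕ), q.Prime → eval t G ≠ 0 →
    ¬ (q : ℤ) ∣ eval (fun i : {i : Fin r // i ≠ j} => t i) c → (q : ℤ) ∣ eval t P →
      (q : ℤ) ∣ eval t G ∧ ¬ (q : ℤ) ∣ eval t F ∧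
        (eval t G).natAbs.factorization q = w * (eval t P).natAbs.factorization q

theorem exists_pol (F G P : MvPolynomial (Fin r) ℤ) (hP : Irreducible P)
    (hPd : 0 < P.totalDegree) (w : ℕ) (hw : 1 ≤ w) (hw1 : P ^ w ∣ G) (hw2 : ¬ P ^ (w + 1) ∣ G)
    (hPF : ¬ P ∣ F) : ∃ j : Fin r, 0 < degreeOf j P ∧ ∃ c, c ≠ 0 ∧ Pol F G P w j c := by
  classical
  obtain ⟨G₁, rfl⟩ := hw1
  have hPp : Prime P := UniqueFactorizationMonoid.irreducible_iff_prime.1 hP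
  have hPG₁ : ¬ P ∣ G₁ := by
    rintro ⟨G₂, rfl⟩
    exact hw2 ⟨G₂, by ring⟩
  have hrel : IsRelPrime P (F * G₁) := by
    rw [hP.isRelPrime_iff_not_dvd]
    intro h
    rcases hPp.dvd_or_dvd h with h | h
    · exact hPF h
    · exact hPG₁ h
  obtain ⟨j, hj⟩ := exists_var P hPd
  obtain ⟨c, hc, hres⟩ := exists_res P _ hrel j
  have hone : ∀ t, eval t (P ^ w * G₁) ≠ 0 → eval t P ≠ 0 := by
    intro t hG h0
    rw [map_mul, map_pow, h0, zero_pow (by omega), zero_mul] at hG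
    exact hG rfl
  refine ⟨j, hj, c, hc, hone, fun t q hq hG hqc hqP => ?_⟩
  have hP0 := hone t hG
  rw [map_mul, map_pow] at hG
  have hE := hres t q hqc hqP
  rw [map_mul] at hE
  have hqF : ¬ (q : ℤ) ∣ eval t F := fun h => hE (dvd_mul_of_dvd_left h _)
  have hqG₁ : ¬ (q : ℤ) ∣ eval t G₁ := fun h => hE (dvd_mul_of_dvd_right h _)
  refine ⟨?_, hqF, ?_⟩
  · rw [map_mul, map_pow]
    exact dvd_mul_of_dvd_left (dvd_pow hqP (by omega)) _
  · rw [map_mul, map_pow, Int.natAbs_mul, Int.natAbs_pow]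
    have hn1 : (eval t P).natAbs ^ w ≠ 0 := pow_ne_zero _ (Int.natAbs_ne_zero.2 hP0)
    have hn2 : (eval t G₁).natAbs ≠ 0 := Int.natAbs_ne_zero.2 (right_ne_zero_of_mul hG)
    rw [Nat.factorization_mul hn1 hn2, Nat.factorization_pow, Finsupp.add_apply,
      Finsupp.smul_apply, smul_eq_mul,
      Nat.factorization_eq_zero_of_not_dvd fun h => hqG₁ (Int.natCast_dvd.2 h), add_zero]

/-- the order of the image is not divisible by `p` for some curve -/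
def NoOrd (N : ℕ) (a b : ℤ) : Prop :=
  ∃ p : ℕ, p.Prime ∧ N ≤ p ∧ ∃ (L : Type) (_ : Field L) (_ : NumberField L), Mild L p ∧
      ∃ A B : L, 4 * A ^ 3 + 27 * B ^ 2 ≠ 0 ∧ jj A B = (a : L) / b ∧
        ¬ Pool.Agent.Y673.Loc.OrdP A B p

/-- the image does not contain `SL₂(𝔽_p)` for some curve -/
def NoSL (N : ℕ) (a b : ℤ) : Prop :=
  ∃ p : ℕ, p.Prime ∧ N ≤ p ∧ ∃ (L : Type) (_ : Field L) (_ : NumberField L), Mild L p ∧
      ∃ A B : L, 4 * A ^ 3 + 27 * B ^ 2 ≠ 0 ∧ jj A B = (a : L) / b ∧ ¬ HasSL A B p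

/-- the image does not contain `SL₂(𝔽_p)` for some curve over a field of small root discriminant -/
def NoSLD (θ Λ : ℝ) (a b : ℤ) : Prop :=
  ∃ p : ℕ, p.Prime ∧ 5 ≤ p ∧ 3 ≤ θ * p ∧ ∃ (L : Type) (_ : Field L) (_ : NumberField L),
    Real.log |(discr L : ℝ)| ≤ Module.finrank ℚ L * Λ ∧
      ∃ A B : L, 4 * A ^ 3 + 27 * B ^ 2 ≠ 0 ∧ jj A B = (a : L) / b ∧ ¬ HasSL A B p

/-- **the order** -/
theorem count_ord (F G P : MvPolynomial (Fin r) ℤ) (hP : Irreducible P)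
    (hPd : 0 < P.totalDegree) (w : ℕ) (hw : 1 ≤ w) (hw1 : P ^ w ∣ G) (hw2 : ¬ P ^ (w + 1) ∣ G)
    (hPF : ¬ P ∣ F) (N : ℕ) (hN : 5 ≤ N) (hwN : w < N) (ε : ℝ) (hε : 0 < ε) :
    ∃ C : ℝ, 0 < C ∧ ∀ H : ℕ, 1 ≤ H → ∀ Bad : Finset (Fin r → ℤ), Bad ⊆ box r H →
      (∀ t ∈ Bad, eval t G ≠ 0 ∧ NoOrd N (eval t F) (eval t G)) →
      (Bad.card : ℝ) ≤ C * (H : ℝ) ^ ((r : ℝ) - 1 + P.totalDegree / (N : ℝ) + ε) := by
  classical
  obtain ⟨j, hj, c, hc, hpol⟩ := exists_pol F G P hP hPd w hw hw1 hw2 hPF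
  obtain ⟨C, hC, hcard⟩ := card_pow P j hj c hc 1 N (by omega) ε hε
  refine ⟨C, hC, fun H hH Bad hBad hbad => ?_⟩
  have h := hcard H hH 1 le_rfl Bad hBad fun t ht => by
    obtain ⟨hG, p, hp, hNp, L, iF, iN, hL, A, B, hD, hj1, hno⟩ := hbad t ht
    refine ⟨hpol.one t hG, p, hNp, 1, le_rfl, le_rfl, fun q hq _ hqc _ => ?_⟩
    by_cases hqP : (q : ℤ) ∣ eval t P
    swap
    · rw [Nat.factorization_eq_zero_of_not_dvd fun h => hqP (Int.natCast_dvd.2 h)]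
      exact dvd_zero _
    obtain ⟨h1, h2, h3⟩ := hpol.two t q hq hG hqc hqP
    have h4 := ord_part hD hp (hN.trans hNp) hL hno hj1 hG hq h1 h2
    rw [h3] at h4
    rcases (hp.dvd_mul).1 h4 with h2 | h2
    · have := Nat.le_of_dvd hw h2
      omega
    · exact h2
  rwa [Nat.cast_one, Real.one_rpow, mul_one] at h

/-- the size of two polynomials -/
theorem size_two (F G : MvPolynomial (Fin r) ℤ) : ∃ C : ℝ, 1 ≤ C ∧ ∀ H : ℕ, 1 ≤ H →
    ∀ t : Fin r → ℤ, (∀ i, |t i| ≤ H) →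
      |((eval t F : ℤ) : ℝ)| ≤ C * (H : ℝ) ^ (max F.totalDegree G.totalDegree) ∧
      |((eval t G : ℤ) : ℝ)| ≤ C * (H : ℝ) ^ (max F.totalDegree G.totalDegree) := by
  obtain ⟨C1, hC1, h1⟩ := eval_le' F
  obtain ⟨C2, hC2, h2⟩ := eval_le' G
  have key : ∀ (x : ℤ) (C H a d : ℕ), 1 ≤ H → a ≤ d → x.natAbs ≤ C * H ^ a →
      |(x : ℝ)| ≤ (C : ℝ) * (H : ℝ) ^ d := by
    intro x C H a d hH had h
    have h3 : x.natAbs ≤ C * H ^ d := h.trans (Nat.mul_le_mul_left _ (Nat.pow_le_pow_right hH had))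
    have h4 : ((x.natAbs : ℕ) : ℝ) ≤ (C : ℝ) * (H : ℝ) ^ d := by exact_mod_cast h3
    refine le_trans (le_of_eq ?_) h4
    rw [Nat.cast_natAbs, Int.cast_abs]
  refine ⟨(C1 + C2 : ℕ), by exact_mod_cast (by omega : 1 ≤ C1 + C2), fun H hH t ht => ⟨?_, ?_⟩⟩
  · exact key _ _ _ _ _ hH (le_max_left _ _)
      ((h1 H hH t ht).trans (Nat.mul_le_mul_right _ (Nat.le_add_right _ _)))
  · exact key _ _ _ _ _ hH (le_max_right _ _)
      ((h2 H hH t ht).trans (Nat.mul_le_mul_right _ (Nat.le_add_left _ _)))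

/-- counting with exceptional prime factors of product at most `R` -/
theorem count_R (P : MvPolynomial (Fin r) ℤ) (j : Fin r) (hj : 0 < degreeOf j P)
    (c : MvPolynomial {i : Fin r // i ≠ j} ℤ) (hc : c ≠ 0) (U : ℕ) (hU : 1 ≤ U) (ρ : ℝ)
    (hρ : 0 ≤ ρ) (C0 : ℝ) (hC0 : 1 ≤ C0) (ε : ℝ) (hε : 0 < ε) :
    ∃ C : ℝ, 0 < C ∧ ∀ H : ℕ, 1 ≤ H → ∀ Bad : Finset (Fin r → ℤ), Bad ⊆ box r H →
      (∀ t ∈ Bad, eval t P ≠ 0 ∧ ∃ u, U ≤ u ∧ ∃ S : Finset ℕ, (∀ q ∈ S, q.Prime) ∧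
        ∑ q ∈ S, Real.log q ≤ ρ * Real.log H + Real.log C0 ∧
        ∀ q : ℕ, q.Prime → ¬ (q : ℤ) ∣ eval (fun i : {i : Fin r // i ≠ j} => t i) c → q ∉ S →
          u ∣ (eval t P).natAbs.factorization q) →
      (Bad.card : ℝ) ≤ C * (H : ℝ) ^ ((r : ℝ) - 1 + P.totalDegree / (U : ℝ) + ρ + ε) := by
  classical
  obtain ⟨ε₁, hε₁d⟩ : ∃ ε₁, ε₁ = ε / (ρ + 1) := ⟨_, rfl⟩
  have hε₁ : 0 < ε₁ := by
    rw [hε₁d]
    positivity
  have hε₁e : ρ * ε₁ + ε₁ = ε := by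
    rw [hε₁d]
    field_simp
  obtain ⟨C, hC, hcard⟩ := card_pow P j hj c hc 1 U hU ε₁ hε₁
  have hC00 : 0 < C0 := by linarith
  refine ⟨C * C0 ^ (1 + ε₁), by positivity, fun H hH Bad hBad hbad => ?_⟩
  have hH1 : (1 : ℝ) ≤ H := by exact_mod_cast hH
  have hH0 : (0 : ℝ) < H := by linarith
  have hHρ : (1 : ℝ) ≤ (H : ℝ) ^ ρ := Real.one_le_rpow hH1 hρ
  obtain ⟨R, hR⟩ : ∃ R : ℕ, R = ⌊C0 * (H : ℝ) ^ ρ⌋₊ := ⟨_, rfl⟩
  have hR1 : 1 ≤ R := by
    rw [hR]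
    refine Nat.le_floor ?_
    rw [Nat.cast_one]
    nlinarith
  have hR2 : (R : ℝ) ≤ C0 * (H : ℝ) ^ ρ := by
    rw [hR]
    exact Nat.floor_le (by positivity)
  have h := hcard H hH R hR1 Bad hBad fun t ht => by
    obtain ⟨hP0, u, hu, S, hS, hsum, hdiv⟩ := hbad t ht
    refine ⟨hP0, u, hu, ∏ q ∈ S, q, ?_, ?_, fun q hq _ hqc hqm => hdiv q hq hqc fun hqS =>
      hqm (Finset.dvd_prod_of_mem _ hqS)⟩
    · exact Nat.succ_le_of_lt (Finset.prod_pos fun q hq => (hS q hq).pos)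
    · rw [hR]
      refine Nat.le_floor ?_
      have h1 : ((∏ q ∈ S, q : ℕ) : ℝ) = Real.exp (∑ q ∈ S, Real.log q) := by
        rw [Real.exp_sum]
        push_cast
        refine Finset.prod_congr rfl fun q hq => ?_
        rw [Real.exp_log (by exact_mod_cast (hS q hq).pos)]
      rw [h1]
      refine (Real.exp_le_exp.2 hsum).trans (le_of_eq ?_)
      rw [Real.exp_add, Real.exp_log hC00, Real.rpow_def_of_pos hH0, mul_comm]
      congr 2
      ring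
  refine h.trans ?_
  have h2 : (R : ℝ) ^ (1 + ε₁) ≤ C0 ^ (1 + ε₁) * (H : ℝ) ^ (ρ * (1 + ε₁)) := by
    refine (Real.rpow_le_rpow (Nat.cast_nonneg _) hR2 (by positivity)).trans (le_of_eq ?_)
    rw [Real.mul_rpow hC00.le (by positivity), ← Real.rpow_mul hH0.le]
  calc C * (R : ℝ) ^ (1 + ε₁) * (H : ℝ) ^ ((r : ℝ) - 1 + P.totalDegree / (U : ℝ) + ε₁)
      ≤ C * (C0 ^ (1 + ε₁) * (H : ℝ) ^ (ρ * (1 + ε₁))) *
        (H : ℝ) ^ ((r : ℝ) - 1 + P.totalDegree / (U : ℝ) + ε₁) :=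
        mul_le_mul_of_nonneg_right (mul_le_mul_of_nonneg_left h2 hC.le) (by positivity)
    _ = C * C0 ^ (1 + ε₁) * ((H : ℝ) ^ (ρ * (1 + ε₁)) *
        (H : ℝ) ^ ((r : ℝ) - 1 + P.totalDegree / (U : ℝ) + ε₁)) := by ring
    _ = _ := by
        rw [← Real.rpow_add hH0]
        congr 2
        linarith

/-- the part of a number at a finite set of primes -/
theorem split_part {x : ℕ} (hx : x ≠ 0) (S : Finset ℕ) (hS : ∀ q ∈ S, q.Prime) :
    ∃ z : ℕ, x = (∏ q ∈ S, q ^ x.factorization q) * z ∧ (∀ q ∈ S, z.factorization q = 0) ∧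
      ∀ q : ℕ, q.Prime → q ∉ S → z.factorization q = x.factorization q := by
  classical
  obtain ⟨y, hy⟩ : ∃ y, y = ∏ q ∈ S, q ^ x.factorization q := ⟨_, rfl⟩
  have hy0 : y ≠ 0 := by
    rw [hy]
    exact (Finset.prod_pos fun q hq => pow_pos (hS q hq).pos _).ne'
  have hyf : ∀ q : ℕ, q.Prime → y.factorization q = if q ∈ S then x.factorization q else 0 := by
    intro q hq
    rw [hy, Nat.factorization_prod (fun a ha => pow_ne_zero _ (hS a ha).ne_zero)]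
    rw [Finsupp.finsetSum_apply]
    have h1 : ∀ a ∈ S, (a ^ x.factorization a).factorization q =
        if a = q then x.factorization q else 0 := by
      intro a ha
      rw [Nat.factorization_pow, Finsupp.smul_apply, smul_eq_mul, (hS a ha).factorization,
        Finsupp.single_apply]
      split_ifs with h
      · rw [h, mul_one]
      · rw [mul_zero]
    rw [Finset.sum_congr rfl h1, Finset.sum_ite_eq']
  have hdvd : y ∣ x := by
    rw [← Nat.factorization_le_iff_dvd hy0 hx]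
    intro q
    by_cases hq : q.Prime
    · rw [hyf q hq]
      split_ifs
      · exact le_rfl
      · exact Nat.zero_le _
    · rw [Nat.factorization_eq_zero_of_not_prime _ hq]
      exact Nat.zero_le _
  obtain ⟨z, hz⟩ := hdvd
  have hz0 : z ≠ 0 := by
    rintro rfl
    exact hx (by rw [hz, mul_zero])
  have hsum : ∀ q : ℕ, q.Prime → x.factorization q = y.factorization q + z.factorization q := by
    intro q _
    conv_lhs => rw [hz]
    rw [Nat.factorization_mul hy0 hz0, Finsupp.add_apply]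
  refine ⟨z, by rw [← hy]; exact hz, fun q hq => ?_, fun q hq hqS => ?_⟩
  · have h1 := hsum q (hS q hq)
    rw [hyf q (hS q hq), if_pos hq] at h1
    omega
  · have h1 := hsum q hq
    rw [hyf q hq, if_neg hqS] at h1
    omega

/-- counting with an exceptional part at most `R` -/
theorem count_Y (P : MvPolynomial (Fin r) ℤ) (j : Fin r) (hj : 0 < degreeOf j P)
    (c : MvPolynomial {i : Fin r // i ≠ j} ℤ) (hc : c ≠ 0) (U : ℕ) (hU : 2 ≤ U) (ρ : ℝ)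
    (hρ : 0 ≤ ρ) (C0 : ℝ) (hC0 : 1 ≤ C0) (ε : ℝ) (hε : 0 < ε) :
    ∃ C : ℝ, 0 < C ∧ ∀ H : ℕ, 1 ≤ H → ∀ Bad : Finset (Fin r → ℤ), Bad ⊆ box r H →
      (∀ t ∈ Bad, eval t P ≠ 0 ∧ ∃ u, U ≤ u ∧ ∃ S : Finset ℕ, (∀ q ∈ S, q.Prime) ∧
        ∑ q ∈ S, ((eval t P).natAbs.factorization q : ℝ) * Real.log q ≤
          ρ * Real.log H + Real.log C0 ∧
        ∀ q : ℕ, q.Prime → ¬ (q : ℤ) ∣ eval (fun i : {i : Fin r // i ≠ j} => t i) c → q ∉ S →
          u ∣ (eval t P).natAbs.factorization q) →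
      (Bad.card : ℝ) ≤ C * (H : ℝ) ^ ((r : ℝ) - 1 + P.totalDegree / (U : ℝ) +
        ρ * (1 - 1 / (U : ℝ)) + ε) := by
  classical
  obtain ⟨C, hC, hcard⟩ := card_powR P j hj c hc U hU ε hε
  have hC00 : 0 < C0 := by linarith
  have hUr : (2 : ℝ) ≤ U := by exact_mod_cast hU
  have hU1 : (0 : ℝ) ≤ 1 - 1 / (U : ℝ) := by
    have : 1 / (U : ℝ) ≤ 1 / 2 := one_div_le_one_div_of_le (by norm_num) hUr
    linarith
  refine ⟨C * C0 ^ (1 - 1 / (U : ℝ)), by positivity, fun H hH Bad hBad hbad => ?_⟩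
  have hH1 : (1 : ℝ) ≤ H := by exact_mod_cast hH
  have hH0 : (0 : ℝ) < H := by linarith
  have hHρ : (1 : ℝ) ≤ (H : ℝ) ^ ρ := Real.one_le_rpow hH1 hρ
  obtain ⟨R, hR⟩ : ∃ R : ℕ, R = ⌊C0 * (H : ℝ) ^ ρ⌋₊ := ⟨_, rfl⟩
  have hR1 : 1 ≤ R := by
    rw [hR]
    refine Nat.le_floor ?_
    rw [Nat.cast_one]
    nlinarith
  have hR2 : (R : ℝ) ≤ C0 * (H : ℝ) ^ ρ := by
    rw [hR]
    exact Nat.floor_le (by positivity)
  have h := hcard H hH R hR1 Bad hBad fun t ht => by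
    obtain ⟨hP0, u, hu, S, hS, hsum, hdiv⟩ := hbad t ht
    obtain ⟨z, hz1, hz2, hz3⟩ := split_part (Int.natAbs_ne_zero.2 hP0) S hS
    refine ⟨hP0, u, hu, _, z, ?_, ?_, hz1, fun q hq hqc => ?_⟩
    · exact Nat.succ_le_of_lt (Finset.prod_pos fun q hq => pow_pos (hS q hq).pos _)
    · rw [hR]
      refine Nat.le_floor ?_
      have h1 : ((∏ q ∈ S, q ^ (eval t P).natAbs.factorization q : ℕ) : ℝ) =
          Real.exp (∑ q ∈ S, ((eval t P).natAbs.factorization q : ℝ) * Real.log q) := by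
        rw [Real.exp_sum]
        push_cast
        refine Finset.prod_congr rfl fun q hq => ?_
        rw [← Real.log_pow, Real.exp_log (pow_pos (by exact_mod_cast (hS q hq).pos) _)]
      rw [h1]
      refine (Real.exp_le_exp.2 hsum).trans (le_of_eq ?_)
      rw [Real.exp_add, Real.exp_log hC00, Real.rpow_def_of_pos hH0, mul_comm]
      congr 2
      ring
    · by_cases hqS : q ∈ S
      · rw [hz2 q hqS]
        exact dvd_zero _
      · rw [hz3 q hq hqS]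
        exact hdiv q hq hqc hqS
  refine h.trans ?_
  have h2 : (R : ℝ) ^ (1 - 1 / (U : ℝ)) ≤
      C0 ^ (1 - 1 / (U : ℝ)) * (H : ℝ) ^ (ρ * (1 - 1 / (U : ℝ))) := by
    refine (Real.rpow_le_rpow (Nat.cast_nonneg _) hR2 hU1).trans (le_of_eq ?_)
    rw [Real.mul_rpow hC00.le (by positivity), ← Real.rpow_mul hH0.le]
  calc C * (R : ℝ) ^ (1 - 1 / (U : ℝ)) *
        (H : ℝ) ^ ((r : ℝ) - 1 + P.totalDegree / (U : ℝ) + ε)
      ≤ C * (C0 ^ (1 - 1 / (U : ℝ)) * (H : ℝ) ^ (ρ * (1 - 1 / (U : ℝ)))) *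
        (H : ℝ) ^ ((r : ℝ) - 1 + P.totalDegree / (U : ℝ) + ε) :=
        mul_le_mul_of_nonneg_right (mul_le_mul_of_nonneg_left h2 hC.le) (by positivity)
    _ = C * C0 ^ (1 - 1 / (U : ℝ)) * ((H : ℝ) ^ (ρ * (1 - 1 / (U : ℝ))) *
        (H : ℝ) ^ ((r : ℝ) - 1 + P.totalDegree / (U : ℝ) + ε)) := by ring
    _ = _ := by
        rw [← Real.rpow_add hH0]
        congr 2
        ring

/-- **the image contains `SL₂(𝔽_p)`** -/
theorem count_SL (F G P : MvPolynomial (Fin r) ℤ) (hP : Irreducible P)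
    (hPd : 0 < P.totalDegree) (w : ℕ) (hw : 1 ≤ w) (hw1 : P ^ w ∣ G) (hw2 : ¬ P ^ (w + 1) ∣ G)
    (hPF : ¬ P ∣ F) (N : ℕ) (hN : 5 ≤ N) (hwN : w < N) (ε : ℝ) (hε : 0 < ε) :
    ∃ C : ℝ, 0 < C ∧ ∀ H : ℕ, 1 ≤ H → ∀ Bad : Finset (Fin r → ℤ), Bad ⊆ box r H →
      (∀ t ∈ Bad, eval t G ≠ 0 ∧ NoSL N (eval t F) (eval t G)) →
      (Bad.card : ℝ) ≤ C * (H : ℝ) ^ ((r : ℝ) - 1 + (P.totalDegree +
        2 * (max F.totalDegree G.totalDegree : ℕ) / (w : ℝ)) / N + ε) := by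
  classical
  obtain ⟨j, hj, c, hc, hpol⟩ := exists_pol F G P hP hPd w hw hw1 hw2 hPF
  obtain ⟨C1, hC1, hsize⟩ := size_two F G
  obtain ⟨d, hd⟩ : ∃ d, d = max F.totalDegree G.totalDegree := ⟨_, rfl⟩
  rw [← hd] at hsize ⊢
  have hNr : (5 : ℝ) ≤ N := by exact_mod_cast hN
  have hwr : (1 : ℝ) ≤ w := by exact_mod_cast hw
  have hc9 := c9_pos
  have hN1 : (0 : ℝ) < (N : ℝ) - 1 := by linarith
  obtain ⟨ρ, hρ⟩ : ∃ ρ : ℝ, ρ = 2 * (d : ℝ) / (w * ((N : ℝ) - 1)) := ⟨_, rfl⟩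
  have hρ0 : 0 ≤ ρ := by
    rw [hρ]
    positivity
  have hlC1 : 0 ≤ Real.log C1 := Real.log_nonneg hC1
  obtain ⟨C, hC, hcard⟩ := count_Y P j hj c hc N (by omega) ρ hρ0
    (Real.exp (Real.log C1 + 6 * c9)) (Real.one_le_exp (by positivity)) ε hε
  have hexp : (r : ℝ) - 1 + P.totalDegree / (N : ℝ) + ρ * (1 - 1 / (N : ℝ)) + ε =
      (r : ℝ) - 1 + (P.totalDegree + 2 * (d : ℝ) / (w : ℝ)) / N + ε := by
    rw [hρ]
    have hN0 : (N : ℝ) ≠ 0 := by positivity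
    have hw0 : (w : ℝ) ≠ 0 := by positivity
    have hN10 : (N : ℝ) - 1 ≠ 0 := hN1.ne'
    field_simp
    ring
  rw [hexp] at hcard
  refine ⟨C, hC, fun H hH Bad hBad hbad => hcard H hH Bad hBad fun t ht => ?_⟩
  obtain ⟨hG, p, hp, hNp, L, iF, iN, hL, A, B, hD, hj1, hno⟩ := hbad t ht
  have hP0 := hpol.one t hG
  have hH1 : (1 : ℝ) ≤ H := by exact_mod_cast hH
  have hH0 : (0 : ℝ) < H := by linarith
  have hlH : 0 ≤ Real.log H := Real.log_nonneg hH1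
  obtain ⟨S, hS⟩ : ∃ S : Finset ℕ, S = (eval t P).natAbs.primeFactors.filter fun q : ℕ =>
    ¬ (q : ℤ) ∣ eval (fun i : {i : Fin r // i ≠ j} => t i) c ∧
      ¬ p ∣ (eval t P).natAbs.factorization q := ⟨_, rfl⟩
  have hSm : ∀ q ∈ S, q.Prime ∧ (q : ℤ) ∣ eval t P ∧
      ¬ (q : ℤ) ∣ eval (fun i : {i : Fin r // i ≠ j} => t i) c ∧
      ¬ p ∣ (eval t P).natAbs.factorization q := by
    intro q hq
    rw [hS, Finset.mem_filter] at hq
    exact ⟨Nat.prime_of_mem_primeFactors hq.1,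
      Int.natCast_dvd.2 (Nat.dvd_of_mem_primeFactors hq.1), hq.2⟩
  refine ⟨hP0, p, hNp, S, fun q hq => (hSm q hq).1, ?_, fun q hq hqc hqS => ?_⟩
  · obtain ⟨hF, hG'⟩ := hsize H hH t (mem_box.1 (hBad ht))
    have h1 := line_part hD hp (hN.trans hNp) hL hno hj1 hG hF hG' S (fun q hq => by
      obtain ⟨h1, h2, h3, h4⟩ := hSm q hq
      obtain ⟨h5, h6, h7⟩ := hpol.two t q h1 hG h3 h2
      exact ⟨h1, h5, h6⟩) (fun q hq hdiv => by
      obtain ⟨h1, h2, h3, h4⟩ := hSm q hq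
      obtain ⟨h5, h6, h7⟩ := hpol.two t q h1 hG h3 h2
      rw [h7] at hdiv
      rcases (hp.dvd_mul).1 hdiv with h8 | h8
      · have := Nat.le_of_dvd hw h8
        omega
      · exact h4 h8)
    have h2 : (w : ℝ) * ∑ q ∈ S, ((eval t P).natAbs.factorization q : ℝ) * Real.log q =
        ∑ q ∈ S, ((eval t G).natAbs.factorization q : ℝ) * Real.log q := by
      rw [Finset.mul_sum]
      refine Finset.sum_congr rfl fun q hq => ?_
      obtain ⟨h1, h2, h3, h4⟩ := hSm q hq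
      obtain ⟨h5, h6, h7⟩ := hpol.two t q h1 hG h3 h2
      rw [h7]
      push_cast
      ring
    have hM : Real.log (C1 * (H : ℝ) ^ d) = Real.log C1 + d * Real.log H := by
      rw [Real.log_mul (by linarith) (by positivity), Real.log_pow]
    have hpN : (N : ℝ) ≤ p := by exact_mod_cast hNp
    have h3 : 2 / ((p : ℝ) - 1) ≤ 2 / ((N : ℝ) - 1) :=
      div_le_div_of_nonneg_left (by norm_num) hN1 (by linarith)
    have h4 : (0 : ℝ) ≤ Real.log C1 + d * Real.log H := by positivity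
    have h5 : (w : ℝ) * ∑ q ∈ S, ((eval t P).natAbs.factorization q : ℝ) * Real.log q ≤
        2 / ((N : ℝ) - 1) * (Real.log C1 + d * Real.log H) + 6 * c9 := by
      rw [hM] at h1
      have := mul_le_mul_of_nonneg_right h3 h4
      linarith
    rw [Real.log_exp]
    have h6 : 2 / ((N : ℝ) - 1) * Real.log C1 ≤ Real.log C1 := by
      have h7 : 2 / ((N : ℝ) - 1) ≤ 1 := by
        rw [div_le_one hN1]
        linarith
      nlinarith
    have h7 : (w : ℝ) * (ρ * Real.log H + (Real.log C1 + 6 * c9)) ≥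
        2 / ((N : ℝ) - 1) * (d * Real.log H) + (Real.log C1 + 6 * c9) := by
      have h8 : (w : ℝ) * (ρ * Real.log H) = 2 / ((N : ℝ) - 1) * (d * Real.log H) := by
        rw [hρ]
        field_simp
      have h9 : (0 : ℝ) ≤ Real.log C1 + 6 * c9 := by positivity
      nlinarith
    have h8 : (w : ℝ) * ∑ q ∈ S, ((eval t P).natAbs.factorization q : ℝ) * Real.log q ≤
        (w : ℝ) * (ρ * Real.log H + (Real.log C1 + 6 * c9)) := by
      refine h5.trans (le_trans (le_trans ?_ h7.le) le_rfl)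
      rw [mul_add]
      linarith
    exact le_of_mul_le_mul_left h8 (by linarith)
  · by_contra hno2
    apply hqS
    rw [hS, Finset.mem_filter]
    refine ⟨?_, hqc, hno2⟩
    rw [Nat.mem_primeFactors]
    refine ⟨hq, ?_, Int.natAbs_ne_zero.2 hP0⟩
    by_contra hqP
    apply hno2
    rw [Nat.factorization_eq_zero_of_not_dvd hqP]
    exact dvd_zero _

/-- **the image contains `SL₂(𝔽_p)`, fields of small root discriminant** -/
theorem count_disc (F G P : MvPolynomial (Fin r) ℤ) (hP : Irreducible P)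
    (hPd : 0 < P.totalDegree) (w : ℕ) (hw : 1 ≤ w) (hw1 : P ^ w ∣ G) (hw2 : ¬ P ^ (w + 1) ∣ G)
    (hPF : ¬ P ∣ F) (θ κ : ℝ) (hθ : 0 ≤ θ) (hκ : 0 ≤ κ) (ε : ℝ) (hε : 0 < ε) :
    ∃ C : ℝ, 0 < C ∧ ∀ H : ℕ, 1 ≤ H → ∀ Bad : Finset (Fin r → ℤ), Bad ⊆ box r H →
      (∀ t ∈ Bad, eval t G ≠ 0 ∧ NoSLD θ (κ * Real.log H) (eval t F) (eval t G)) →
      (Bad.card : ℝ) ≤ C * (H : ℝ) ^ ((r : ℝ) - 1 +
        θ * (max F.totalDegree G.totalDegree : ℕ) + κ + ε) := by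
  classical
  obtain ⟨j, hj, c, hc, hpol⟩ := exists_pol F G P hP hPd w hw hw1 hw2 hPF
  obtain ⟨C1, hC1, hsize⟩ := size_two F G
  obtain ⟨d, hd⟩ : ∃ d, d = max F.totalDegree G.totalDegree := ⟨_, rfl⟩
  rw [← hd] at hsize ⊢
  have hlC1 : 0 ≤ Real.log C1 := Real.log_nonneg hC1
  have hc10 := c10_pos
  -- the exponent of the power
  obtain ⟨U, hU⟩ := exists_nat_gt ((P.totalDegree : ℝ) / (ε / 2))
  have hU0 : 0 < U := by
    have h1 : (0 : ℝ) < U := lt_of_le_of_lt (by positivity) hU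
    exact_mod_cast h1
  have hUr : (0 : ℝ) < U := by exact_mod_cast hU0
  have hU2 : (P.totalDegree : ℝ) / U ≤ ε / 2 := by
    rw [div_lt_iff₀ (by positivity)] at hU
    rw [div_le_iff₀ hUr]
    linarith
  obtain ⟨C, hC, hcard⟩ := count_R P j hj c hc U hU0 (θ * d + κ) (by positivity)
    (Real.exp (θ * Real.log C1 + c10)) (Real.one_le_exp (by positivity)) (ε / 2) (by positivity)
  refine ⟨C, hC, fun H hH Bad hBad hbad => ?_⟩
  have hH1 : (1 : ℝ) ≤ H := by exact_mod_cast hH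
  have hH0 : (0 : ℝ) < H := by linarith
  have hlH : 0 ≤ Real.log H := Real.log_nonneg hH1
  have hmain := hcard H hH Bad hBad fun t ht => ?_
  · refine hmain.trans (mul_le_mul_of_nonneg_left (Real.rpow_le_rpow_of_exponent_le hH1 ?_) hC.le)
    linarith
  obtain ⟨hG, p, hp, hp5, hpθ, L, iF, iN, hL, A, B, hD, hj1, hno⟩ := hbad t ht
  have hP0 := hpol.one t hG
  obtain ⟨S, hS⟩ : ∃ S : Finset ℕ, S = (eval t P).natAbs.primeFactors.filter fun q : ℕ =>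
    ¬ (q : ℤ) ∣ eval (fun i : {i : Fin r // i ≠ j} => t i) c := ⟨_, rfl⟩
  have hSm : ∀ q ∈ S, q.Prime ∧ (q : ℤ) ∣ eval t P ∧
      ¬ (q : ℤ) ∣ eval (fun i : {i : Fin r // i ≠ j} => t i) c := by
    intro q hq
    rw [hS, Finset.mem_filter] at hq
    exact ⟨Nat.prime_of_mem_primeFactors hq.1,
      Int.natCast_dvd.2 (Nat.dvd_of_mem_primeFactors hq.1), hq.2⟩
  refine ⟨hP0, U, le_rfl, S, fun q hq => (hSm q hq).1, ?_, fun q hq hqc hqS => ?_⟩
  · obtain ⟨hF, hG'⟩ := hsize H hH t (mem_box.1 (hBad ht))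
    have h1 := all_part hD hp hp5 hno hθ hpθ hL hj1 hG hF hG' S (fun q hq => by
      obtain ⟨h1, h2, h3⟩ := hSm q hq
      obtain ⟨h5, h6, h7⟩ := hpol.two t q h1 hG h3 h2
      exact ⟨h1, h5, h6⟩)
    have hM : Real.log (C1 * (H : ℝ) ^ d) = Real.log C1 + d * Real.log H := by
      rw [Real.log_mul (by linarith) (by positivity), Real.log_pow]
    rw [hM] at h1
    rw [Real.log_exp]
    refine h1.trans (le_of_eq ?_)
    ring
  · have hqP : ¬ q ∣ (eval t P).natAbs := by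
      intro hqP
      apply hqS
      rw [hS, Finset.mem_filter, Nat.mem_primeFactors]
      exact ⟨⟨hq, hqP, Int.natAbs_ne_zero.2 hP0⟩, hqc⟩
    rw [Nat.factorization_eq_zero_of_not_dvd hqP]
    exact dvd_zero _

end Pool.Agent.Q170.SU
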