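import Pool.Agent.Q170.FZ.Pairs
import Pool.Agent.Q237.US.Fin

/-!
The finite part of the height of a rational invariant and the Galois image on the points of order `p`
(helper file; the bounds for the part of the height at the poles are theorems of helper237).
-/

set_option autoImplicit false

namespace Pool.Agent.Q170.SU

open NumberField IsDedekindDomain Pool.Agent.Q170.FZ
open Pool.Agent.Y733.UD Pool.Agent.Y733.LS Pool.Agent.W223.AK Pool.Agent.H691R3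
open Pool.Agent.Q237.LS Pool.Agent.Q237.LT Pool.Agent.Q237.US
open Pool.Agent.Y673.Loc (adv)
open Pool.Agent.Y673.SL (HasSL)

/-- the norm of a place above `q` is at least `q` -/
theorem le_Nv {K : Type} [Field K] [NumberField K] (v : Pr K) {q : ℕ} (hq : q.Prime)
    (hmem : (q : 𝓞 K) ∈ v.asIdeal) : (q : ℝ) ≤ Nv v := by
  have hdvd : q ∣ Ideal.absNorm v.asIdeal := by
    by_contra hcon
    have hcop : Nat.Coprime q (Ideal.absNorm v.asIdeal) := (Nat.Prime.coprime_iff_not_dvd hq).2 hcon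
    have h3 : ((Ideal.absNorm v.asIdeal : ℕ) : 𝓞 K) ∈ v.asIdeal := Ideal.absNorm_mem _
    have h4 := Nat.isCoprime_iff_coprime.2 hcop
    obtain ⟨a, b, hab⟩ := h4
    apply v.isPrime.ne_top
    rw [Ideal.eq_top_iff_one]
    have h5 : (1 : 𝓞 K) = (a : 𝓞 K) * (q : ℕ) + (b : 𝓞 K) * ((Ideal.absNorm v.asIdeal : ℕ) : 𝓞 K) := by
      have h6 := congrArg (Int.cast : ℤ → 𝓞 K) hab
      push_cast at h6
      exact h6.symm
    rw [h5]
    exact v.asIdeal.add_mem (v.asIdeal.mul_mem_left _ hmem) (v.asIdeal.mul_mem_left _ h3)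
  have h2 : 0 < Ideal.absNorm v.asIdeal := by
    have h8 : (0 : ℝ) < (Ideal.absNorm v.asIdeal : ℝ) := Nv_pos v
    exact_mod_cast h8
  have h9 : (q : ℝ) ≤ (Ideal.absNorm v.asIdeal : ℝ) := by
    exact_mod_cast Nat.le_of_dvd h2 hdvd
  exact h9

/-- different primes have different places above them -/
theorem over_inj {K : Type} [Field K] [NumberField K] (v : Pr K) {q q' : ℕ} (hq : q.Prime)
    (hq' : q'.Prime) (h : (q : 𝓞 K) ∈ v.asIdeal) (h' : (q' : 𝓞 K) ∈ v.asIdeal) : q = q' := by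
  by_contra hne
  have hcop : Nat.Coprime q q' := (Nat.coprime_primes hq hq').2 hne
  obtain ⟨a, b, hab⟩ := Nat.isCoprime_iff_coprime.2 hcop
  apply v.isPrime.ne_top
  rw [Ideal.eq_top_iff_one]
  have h5 : (1 : 𝓞 K) = (a : 𝓞 K) * (q : ℕ) + (b : 𝓞 K) * (q' : ℕ) := by
    have h6 := congrArg (Int.cast : ℤ → 𝓞 K) hab
    push_cast at h6
    exact h6.symm
  rw [h5]
  exact v.asIdeal.add_mem (v.asIdeal.mul_mem_left _ h) (v.asIdeal.mul_mem_left _ h')

/-- the place of the field of rational numbers above a prime number -/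
noncomputable def pl (q : ℕ) (hq : q.Prime) : Pr ℚ := (exists_over ℚ hq).choose

theorem pl_mem (q : ℕ) (hq : q.Prime) : (q : 𝓞 ℚ) ∈ (pl q hq).asIdeal :=
  (exists_over ℚ hq).choose_spec

section

variable {L : Type} [Field L] [NumberField L]

/-- the valuation of a quotient of two integers -/
theorem val_quot (v : HeightOneSpectrum (𝓞 L)) {q : ℕ} (hq : q.Prime)
    (hqv : (q : 𝓞 L) ∈ v.asIdeal) {a b : ℤ} (hb : b ≠ 0) (hqa : ¬ (q : ℤ) ∣ a) :
    ((a : L) / b) ≠ 0 ∧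
    (adv L v).v ((a : L) / b) = - ((adv L v).v (q : L) * (b.natAbs.factorization q : ℕ)) := by
  have hbE := adv_int v hq hqv hb
  have haE := adv_unit v hq hqv hqa
  have hjE := haE.div hbE
  rw [zero_sub] at hjE
  exact hjE

end

/-- the primes which divide the denominator only -/
theorem log_fv {q : ℕ} (hq : q.Prime) {a b : ℤ} (hb : b ≠ 0) (hqa : ¬ (q : ℤ) ∣ a)
    (hqb : (q : ℤ) ∣ b) :
    pl q hq ∈ wa ((a : ℚ) / b) ∧
    (b.natAbs.factorization q : ℝ) * Real.log q ≤ Real.log (fv (pl q hq) ((a : ℚ) / b)) := by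
  classical
  obtain ⟨h0, h1⟩ := val_quot (pl q hq) hq (pl_mem q hq) hb hqa
  have hf1 : 1 ≤ b.natAbs.factorization q :=
    hq.factorization_pos_of_dvd (Int.natAbs_ne_zero.2 hb) (Int.natCast_dvd.1 hqb)
  have hq1 := adv_pos (pl q hq) hq (pl_mem q hq)
  obtain ⟨f, hf⟩ : ∃ f, f = b.natAbs.factorization q := ⟨_, rfl⟩
  rw [← hf] at h1 hf1 ⊢
  obtain ⟨e, he⟩ : ∃ e, e = (adv ℚ (pl q hq)).v (q : ℚ) := ⟨_, rfl⟩
  rw [← he] at h1 hq1
  have h2 : (f : ℤ) ≤ e * f := by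
    have : (0 : ℤ) ≤ f := Int.natCast_nonneg _
    nlinarith
  have hN := Nv_one_lt (pl q hq)
  have hlq : 0 ≤ Real.log q := Real.log_natCast_nonneg _
  have hlq' : Real.log q ≤ Real.log (Nv (pl q hq)) :=
    Real.log_le_log (by exact_mod_cast hq.pos) (le_Nv _ hq (pl_mem q hq))
  have hval := fv_adv (pl q hq) h0
  rw [h1, neg_neg] at hval
  have h3 : Real.log (fv (pl q hq) ((a : ℚ) / b)) = ((e * f : ℤ) : ℝ) * Real.log (Nv (pl q hq)) := by
    rw [hval, Real.log_zpow]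
  have h4 : (f : ℝ) ≤ ((e * f : ℤ) : ℝ) := by exact_mod_cast h2
  have h5 : (1 : ℝ) ≤ f := by exact_mod_cast hf1
  have h6 : (f : ℝ) * Real.log q ≤ Real.log (fv (pl q hq) ((a : ℚ) / b)) := by
    rw [h3]
    exact mul_le_mul h4 hlq' hlq (by linarith)
  refine ⟨mem_wa.2 ?_, h6⟩
  have h7 : 0 < Real.log q := Real.log_pos (by exact_mod_cast hq.one_lt)
  have h8 : 0 < Real.log (fv (pl q hq) ((a : ℚ) / b)) :=
    lt_of_lt_of_le (by positivity) h6
  by_contra hcon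
  push Not at hcon
  have h9 := Real.log_nonpos (AbsoluteValue.nonneg _ _) hcon
  linarith

/-- a part of the denominator -/
theorem sum_log_fv {a b : ℤ} (hb : b ≠ 0) (S : Finset ℕ)
    (hS : ∀ q ∈ S, q.Prime ∧ (q : ℤ) ∣ b ∧ ¬ (q : ℤ) ∣ a) : ∃ G : Finset (Pr ℚ),
    G ⊆ wa ((a : ℚ) / b) ∧ (∀ v ∈ G, ∃ q ∈ S, ∃ hq : q.Prime, v = pl q hq) ∧
    ∑ q ∈ S, (b.natAbs.factorization q : ℝ) * Real.log q ≤
      ∑ v ∈ G, Real.log (fv v ((a : ℚ) / b)) ∧
    ∑ q ∈ S, Real.log q ≤ ∑ v ∈ G, Real.log (Nv v) := by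
  classical
  refine ⟨S.attach.image fun q => pl q.1 (hS q.1 q.2).1, ?_, ?_, ?_, ?_⟩
  · intro v hv
    obtain ⟨q, -, rfl⟩ := Finset.mem_image.1 hv
    exact (log_fv (hS q.1 q.2).1 hb (hS q.1 q.2).2.2 (hS q.1 q.2).2.1).1
  · intro v hv
    obtain ⟨q, -, rfl⟩ := Finset.mem_image.1 hv
    exact ⟨q.1, q.2, (hS q.1 q.2).1, rfl⟩
  · rw [Finset.sum_image (fun x _ y _ hxy => Subtype.ext (over_inj (pl x.1 (hS x.1 x.2).1)
      (hS x.1 x.2).1 (hS y.1 y.2).1 (pl_mem _ _) (by rw [hxy]; exact pl_mem _ _)))]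
    rw [← Finset.sum_attach S]
    exact Finset.sum_le_sum fun q _ =>
      (log_fv (hS q.1 q.2).1 hb (hS q.1 q.2).2.2 (hS q.1 q.2).2.1).2
  · rw [Finset.sum_image (fun x _ y _ hxy => Subtype.ext (over_inj (pl x.1 (hS x.1 x.2).1)
      (hS x.1 x.2).1 (hS y.1 y.2).1 (pl_mem _ _) (by rw [hxy]; exact pl_mem _ _)))]
    rw [← Finset.sum_attach S]
    exact Finset.sum_le_sum fun q _ =>
      Real.log_le_log (by exact_mod_cast (hS q.1 q.2).1.pos) (le_Nv _ (hS q.1 q.2).1 (pl_mem _ _))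

/-- the height of a quotient -/
theorem ht_quot {a b : ℤ} (hb : b ≠ 0) {M : ℝ} (ha : |(a : ℝ)| ≤ M) (hbM : |(b : ℝ)| ≤ M) :
    ht ((a : ℚ) / b) ≤ Real.log M := by
  rw [← ht_log]
  unfold Height.logHeight₁
  rw [Rat.mulHeight₁_eq_max]
  have hb1 : 1 ≤ |b| := Int.one_le_abs hb
  have hM : 1 ≤ M := by
    refine le_trans ?_ hbM
    exact_mod_cast hb1
  have h1 : ((a : ℚ) / b).num.natAbs ≤ a.natAbs ∨ a = 0 := by
    by_cases ha0 : a = 0
    · exact Or.inr ha0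
    left
    have h2 := Rat.num_dvd a hb
    have h3 : ((a : ℚ) / b).num ∣ a := by
      rw [Rat.divInt_eq_div] at h2
      exact h2
    exact Nat.le_of_dvd (Int.natAbs_pos.2 ha0) (Int.natAbs_dvd_natAbs.2 h3)
  have h2 : ((a : ℚ) / b).den ≤ b.natAbs := by
    have h2 := Rat.den_dvd a b
    rw [Rat.divInt_eq_div] at h2
    exact Nat.le_of_dvd (Int.natAbs_pos.2 hb) (Int.natCast_dvd.1 h2)
  have h1' : ((a : ℚ) / b).num.natAbs ≤ a.natAbs := by
    rcases h1 with h1 | h1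
    · exact h1
    · rw [h1, Int.cast_zero, zero_div]
      simp
  apply Real.log_le_log
  · have : 0 < ((a : ℚ) / b).den := Rat.den_pos _
    exact_mod_cast lt_of_lt_of_le this (le_max_right _ _)
  · push_cast
    refine max_le ?_ ?_
    · have h3 : ((((a : ℚ) / b).num.natAbs : ℕ) : ℝ) ≤ ((a.natAbs : ℕ) : ℝ) := by exact_mod_cast h1'
      refine h3.trans (le_trans (le_of_eq ?_) ha)
      rw [Nat.cast_natAbs, Int.cast_abs]
    · have h3 : ((((a : ℚ) / b).den : ℕ) : ℝ) ≤ ((b.natAbs : ℕ) : ℝ) := by exact_mod_cast h2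
      rw [Nat.cast_natAbs] at h3
      push_cast at h3
      exact h3.trans hbM

/-- no ramification index of `L` over the field of rational numbers is divisible by `p`, and those
above `p` are less than `(p² - 1)/8` -/
def Mild (L : Type) [Field L] [NumberField L] (p : ℕ) : Prop :=
  ∀ (v : HeightOneSpectrum (𝓞 L)) (q : ℕ), q.Prime → (q : 𝓞 L) ∈ v.asIdeal →
    ¬ (p : ℤ) ∣ (adv L v).v (q : L) ∧ (q = p → 8 * (adv L v).v (q : L) < (p : ℤ) ^ 2 - 1)

section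

variable {L : Type} [Field L] [NumberField L]

/-- the ramification index above `p` of a place above `q` -/
theorem Mild.ram {p : ℕ} (hp5 : 5 ≤ p) (hL : Mild L p) (v : HeightOneSpectrum (𝓞 L)) {q : ℕ}
    (hq : q.Prime) (hp : p.Prime) (hmem : (q : 𝓞 L) ∈ v.asIdeal) :
    8 * (adv L v).v (p : L) < (p : ℤ) ^ 2 - 1 := by
  by_cases h : q = p
  · have h1 := (hL v q hq hmem).2 h
    rw [h] at h1
    exact h1
  · have h1 : ¬ (q : ℤ) ∣ (p : ℤ) := by
      intro h2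
      exact h ((Nat.prime_dvd_prime_iff_eq hq hp).1 (by exact_mod_cast h2))
    have h2 := (adv_unit v hq hmem h1).2
    push_cast at h2
    rw [h2]
    have h3 : (5 : ℤ) ≤ p := by exact_mod_cast hp5
    nlinarith

/-- the order of the image is divisible by `p` or `p` divides the exponent in the denominator -/
theorem ord_part {A B : L} (hD : 4 * A ^ 3 + 27 * B ^ 2 ≠ 0) {p : ℕ} (hp : p.Prime)
    (hp5 : 5 ≤ p) (hL : Mild L p) (hno : ¬ Pool.Agent.Y673.Loc.OrdP A B p) {a b : ℤ}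
    (hj : jj A B = (a : L) / b) (hb : b ≠ 0) {q : ℕ} (hq : q.Prime) (hqb : (q : ℤ) ∣ b)
    (hqa : ¬ (q : ℤ) ∣ a) : p ∣ b.natAbs.factorization q := by
  obtain ⟨v, hqv⟩ := exists_over L hq
  have he1 := adv_pos v hq hqv
  have hv := (val_quot v hq hqv hb hqa).2
  have hf1 : 1 ≤ b.natAbs.factorization q :=
    hq.factorization_pos_of_dvd (Int.natAbs_ne_zero.2 hb) (Int.natCast_dvd.1 hqb)
  rw [← hj] at hv
  have hneg : (adv L v).v (Pool.Agent.Y673.Loc.jv A B) < 0 := by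
    have e : Pool.Agent.Y673.Loc.jv A B = jj A B := rfl
    rw [e, hv]
    have h8 : (1 : ℤ) ≤ (adv L v).v (q : L) * (b.natAbs.factorization q : ℕ) := by
      have h9 : (1 : ℤ) ≤ (b.natAbs.factorization q : ℕ) := by exact_mod_cast hf1
      nlinarith
    omega
  have hdvd := Pool.Agent.Y673.Loc.core A B hD hp hp5 hno v (hL.ram hp5 v hq hp hqv) hneg
  have e : Pool.Agent.Y673.Loc.jv A B = jj A B := rfl
  rw [e, hv, dvd_neg] at hdvd
  have hpp : Prime (p : ℤ) := Nat.prime_iff_prime_int.1 hp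
  rcases hpp.dvd_or_dvd hdvd with h12 | h12
  · exact absurd h12 (hL v q hq hqv).1
  · exact_mod_cast h12

/-- the primes whose exponent in the denominator is not divisible by `p` -/
theorem line_part {A B : L} (hD : 4 * A ^ 3 + 27 * B ^ 2 ≠ 0) {p : ℕ} (hp : p.Prime)
    (hp5 : 5 ≤ p) (hL : Mild L p)
    (hno : ¬ HasSL A B p) {a b : ℤ} (hj : jj A B = (a : L) / b) (hb : b ≠ 0) {M : ℝ}
    (ha : |(a : ℝ)| ≤ M) (hbM : |(b : ℝ)| ≤ M) (S : Finset ℕ)
    (hS : ∀ q ∈ S, q.Prime ∧ (q : ℤ) ∣ b ∧ ¬ (q : ℤ) ∣ a)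
    (hSp : ∀ q ∈ S, ¬ p ∣ b.natAbs.factorization q) :
    ∑ q ∈ S, (b.natAbs.factorization q : ℝ) * Real.log q ≤
      2 / ((p : ℝ) - 1) * Real.log M + 6 * c9 := by
  classical
  obtain ⟨G, hG, hG1, hsum, -⟩ := sum_log_fv (a := a) hb S hS
  obtain ⟨GW, hGW, hsumG⟩ := part_ext (L := L) ((a : ℚ) / b) G hG
  have hjL : algebraMap ℚ L ((a : ℚ) / b) = jj A B := by
    rw [hj, map_div₀, map_intCast, map_intCast]
  rw [hjL] at hsumG hGW
  have hodd : p = 2 * ((p - 1) / 2) + 1 := by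
    have h1 := hp.eq_two_or_odd
    omega
  have hover : ∀ w ∈ GW, ∃ q ∈ S, q.Prime ∧ (q : 𝓞 L) ∈ w.asIdeal := by
    intro w hw
    obtain ⟨q, hqS, hq, hpl⟩ := hG1 _ (hGW w hw).2
    refine ⟨q, hqS, hq, ?_⟩
    have h2 := pl_mem q hq
    rw [← hpl] at h2
    have h3 : algebraMap (𝓞 ℚ) (𝓞 L) (q : 𝓞 ℚ) ∈ w.asIdeal := h2
    rwa [map_natCast] at h3
  have h1 := line_bound' hD hp hp5 (N := (p - 1) / 2) (by omega) (by omega) hno GW
    (fun w hw => (hGW w hw).1) (by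
      intro w hw hdvd
      obtain ⟨q, hqS, hq, hmem⟩ := hover w hw
      have hv := (val_quot w hq hmem hb (hS q hqS).2.2 (a := a)).2
      rw [← hj] at hv
      rw [hv, dvd_neg] at hdvd
      have hpp : Prime (p : ℤ) := Nat.prime_iff_prime_int.1 hp
      rcases hpp.dvd_or_dvd hdvd with h12 | h12
      · exact (hL w q hq hmem).1 h12
      · exact hSp q hqS (by exact_mod_cast h12)) (by
      intro w hw
      obtain ⟨q, hqS, hq, hmem⟩ := hover w hw
      exact hL.ram hp5 w hq hp hmem)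
  have hht : ht (jj A B) = Module.finrank ℚ L * ht ((a : ℚ) / b) := by
    rw [← hjL, ht_ext]
  have hq := ht_quot hb ha hbM
  have hn0 : (0 : ℝ) < Module.finrank ℚ L := Pool.Agent.Q237.LS.n_pos (K := L)
  rw [hsumG, hht] at h1
  have h2 : ∑ v ∈ G, Real.log (fv v ((a : ℚ) / b)) ≤
      ht ((a : ℚ) / b) / ((p - 1) / 2 : ℕ) + 6 * c9 := by
    refine le_of_mul_le_mul_left (h1.trans (le_of_eq ?_)) hn0
    ring
  refine hsum.trans (h2.trans ?_)
  obtain ⟨N, hN⟩ : ∃ N, N = (p - 1) / 2 := ⟨_, rfl⟩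
  rw [← hN] at hodd ⊢
  have hpN : (p : ℝ) = 2 * N + 1 := by exact_mod_cast hodd
  have hN2 : (0 : ℝ) < N := by
    have : 0 < N := by omega
    exact_mod_cast this
  have h3 : (2 : ℝ) / ((p : ℝ) - 1) = 1 / N := by
    rw [hpN]
    field_simp
    ring
  rw [h3, div_eq_mul_one_div, mul_comm]
  have h4 : (0 : ℝ) ≤ 1 / N := by positivity
  have := mul_le_mul_of_nonneg_left hq h4
  linarith

/-- fields of small degree -/
theorem mild_of_degree {p : ℕ} (hn : Module.finrank ℚ L < p)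
    (hn8 : 8 * Module.finrank ℚ L + 1 < p ^ 2) : Mild L p := by
  intro v q hq hmem
  have he1 := adv_pos v hq hmem
  have he2 := v_le v hq
  refine ⟨fun h => ?_, fun h => ?_⟩
  · have h13 := Int.le_of_dvd (by omega) h
    have h10 : ((Module.finrank ℚ L : ℕ) : ℤ) < p := by exact_mod_cast hn
    omega
  · have h2 : (8 : ℤ) * Module.finrank ℚ L + 1 < (p : ℤ) ^ 2 := by exact_mod_cast hn8
    omega

/-- the primes of the denominator, and fields of small root discriminant -/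
theorem all_part {A B : L} (hD : 4 * A ^ 3 + 27 * B ^ 2 ≠ 0) {p : ℕ} (hp : p.Prime)
    (hp5 : 5 ≤ p) (hno : ¬ HasSL A B p) {θ Λ : ℝ} (hθ : 0 ≤ θ) (hpθ : 3 ≤ θ * p)
    (hL : Real.log |(discr L : ℝ)| ≤ Module.finrank ℚ L * Λ) {a b : ℤ}
    (hj : jj A B = (a : L) / b) (hb : b ≠ 0) {M : ℝ}
    (ha : |(a : ℝ)| ≤ M) (hbM : |(b : ℝ)| ≤ M) (S : Finset ℕ)
    (hS : ∀ q ∈ S, q.Prime ∧ (q : ℤ) ∣ b ∧ ¬ (q : ℤ) ∣ a) :
    ∑ q ∈ S, Real.log q ≤ θ * Real.log M + Λ + c10 := by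
  classical
  obtain ⟨G, hG, hG1, hsum, hsum2⟩ := sum_log_fv (a := a) hb S hS
  have hq := ht_quot hb ha hbM
  have hjL : algebraMap ℚ L ((a : ℚ) / b) = jj A B := by
    rw [hj, map_div₀, map_intCast, map_intCast]
  have hfa : ∑ q ∈ S, Real.log q ≤ fa ((a : ℚ) / b) :=
    hsum2.trans (Finset.sum_le_sum_of_subset_of_nonneg hG fun v _ _ => (log_Nv_pos v).le)
  have h1 := fa_bound' hD hp hp5 hno
  have h2 := fa_ext (L := L) ((a : ℚ) / b)
  have hht : ht (jj A B) = Module.finrank ℚ L * ht ((a : ℚ) / b) := by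
    rw [← hjL, ht_ext]
  rw [hjL] at h2
  rw [hht] at h1
  have hp0 : (0 : ℝ) < p := by exact_mod_cast hp.pos
  have h3 : 3 / (p : ℝ) ≤ θ := by
    rw [div_le_iff₀ hp0]
    exact hpθ
  have h0 := ht_nonneg ((a : ℚ) / b)
  have hn0 : (0 : ℝ) < Module.finrank ℚ L := Pool.Agent.Q237.LS.n_pos (K := L)
  have h4 : 3 / (p : ℝ) * (Module.finrank ℚ L * ht ((a : ℚ) / b)) ≤
      θ * (Module.finrank ℚ L * ht ((a : ℚ) / b)) :=
    mul_le_mul_of_nonneg_right h3 (by positivity)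
  have hdisc : Real.log |(discr ℚ : ℝ)| = 0 := by
    rw [Rat.numberField_discr]
    simp
  rw [hdisc, mul_zero, sub_zero] at h2
  have h5 : fa ((a : ℚ) / b) ≤ θ * ht ((a : ℚ) / b) + Λ + c10 := by
    refine le_of_mul_le_mul_left (a := (Module.finrank ℚ L : ℝ)) ?_ hn0
    have e : (Module.finrank ℚ L : ℝ) * (θ * ht ((a : ℚ) / b) + Λ + c10) =
        θ * (Module.finrank ℚ L * ht ((a : ℚ) / b)) + Module.finrank ℚ L * Λ +
          Module.finrank ℚ L * c10 := by ring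
    rw [e]
    linarith
  have h6 := mul_le_mul_of_nonneg_left hq hθ
  linarith

end

end Pool.Agent.Q170.SU
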